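import Pool.Agent.BPG.Roots
import Pool.Agent.RHE.Out

set_option autoImplicit false

/-!
# BPG-Dat: the data
-/

namespace BPG

open Pool.Agent.RHE Polynomial

section

variable {r : ℕ} (P : Fin (r + 1) → ℤ[X])

/-- the index set of all roots -/
abbrev J : Type := Σ i : Fin (r + 1), {t // t ∈ rt (P i)}

/-- the numbering of the roots -/
noncomputable def ix : Fin (Fintype.card (J P)) ≃ J P := (Fintype.equivFin _).symm

lemma sum_ix {M : Type*} [AddCommMonoid M] (g : Fin (r + 1) → ℂ → M) :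
    ∑ k, g (ix P k).1 (ix P k).2.1 = ∑ i, ∑ t ∈ rt (P i), g i t := by
  rw [(ix P).sum_comp (fun j : J P => g j.1 j.2.1), Fintype.sum_sigma]
  refine Finset.sum_congr rfl fun i _ => ?_
  exact Finset.sum_coe_sort (rt (P i)) (fun t => g i t)

lemma prod_ix {M : Type*} [CommMonoid M] (g : Fin (r + 1) → ℂ → M) :
    ∏ k, g (ix P k).1 (ix P k).2.1 = ∏ i, ∏ t ∈ rt (P i), g i t := by
  rw [(ix P).prod_comp (fun j : J P => g j.1 j.2.1), Fintype.prod_sigma]
  refine Finset.prod_congr rfl fun i _ => ?_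
  exact Finset.prod_coe_sort (rt (P i)) (fun t => g i t)

variable (hm : ∀ i, (P i).Monic) (hi : ∀ i, Irreducible (P i)) (hd : Function.Injective P)
  (e : Fin (r + 1) → ℕ) (he : ∀ i, e i ≠ 0) (c' : ℂ) (hc : c' ≠ 0) (κ' : ℝ) (hκ : |κ'| ≤ 2)
  (ζ : Fin (r + 1) → ℝ) (hζ : ∑ i, (P i).natDegree * ζ i = 0) (hζ0 : ζ ≠ 0)

/-- the data of project RHE -/
noncomputable def dat : Dat where
  r := Fintype.card (J P)
  a := fun k => (ix P k).2.1
  e := fun k => e (ix P k).1
  c := c'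
  κ := κ'
  z := fun k => ζ (ix P k).1
  ha := fun k l h => by
    have h : ((ix P k).2.1 : ℂ) = (ix P l).2.1 := h
    apply (ix P).injective
    have h1 : (ix P k).1 = (ix P l).1 := by
      by_contra hne
      exact rt_disjoint (hm _) (hi _) (hm _) (hi _) (fun h' => hne (hd h')) (ix P k).2.2
        (by rw [h]; exact (ix P l).2.2)
    refine Sigma.ext h1 ?_
    refine (Subtype.heq_iff_coe_eq ?_).2 h
    intro x
    rw [h1]
  he := fun k => Nat.pos_of_ne_zero (he _)
  hc := hc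
  hκ := hκ
  hz := by
    rw [sum_ix P (fun i _ => ζ i), ← hζ]
    refine Finset.sum_congr rfl fun i _ => ?_
    rw [Finset.sum_const, rt_card (hm i) (hi i), nsmul_eq_mul]
  hz0 := by
    intro h
    apply hζ0
    funext i
    have h1 : (rt (P i)).Nonempty := by
      rw [← Finset.card_pos, rt_card (hm i) (hi i)]
      exact natDegree_pos (hm i) (hi i)
    obtain ⟨t, ht⟩ := h1
    have h2 := congrFun h ((ix P).symm ⟨i, t, ht⟩)
    simpa using h2


lemma R_eval (x : ℂ) : (dat P hm hi hd e he c' hc κ' hκ ζ hζ hζ0).R.eval x =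
    c' * ∏ i, (aeval x (P i)) ^ e i := by
  rw [Dat.R_eval]
  change c' * ∏ k, (x - (ix P k).2.1) ^ e (ix P k).1 = _
  rw [prod_ix P (fun i t => (x - t) ^ e i)]
  congr 1
  refine Finset.prod_congr rfl fun i _ => ?_
  rw [Finset.prod_pow, ← pc_eval, pc_prod (hm i) (hi i), eval_prod]
  simp

lemma R_eq : (dat P hm hi hd e he c' hc κ' hκ ζ hζ hζ0).R = C c' * ∏ i, (pc (P i)) ^ e i := by
  refine Polynomial.funext fun x => ?_
  rw [R_eval, eval_mul, eval_C, eval_prod]
  simp only [eval_pow, pc_eval]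

lemma F_eval {x : ℂ} (hx : ∀ i, aeval x (P i) ≠ 0) :
    (dat P hm hi hd e he c' hc κ' hκ ζ hζ hζ0).F x =
      ∑ i, (ζ i : ℂ) * (aeval x (derivative (P i)) / aeval x (P i)) := by
  unfold Dat.F
  change ∑ k, (ζ (ix P k).1 : ℂ) / (x - (ix P k).2.1) = _
  rw [sum_ix P (fun i t => (ζ i : ℂ) / (x - t))]
  refine Finset.sum_congr rfl fun i _ => ?_
  have h1 : (pc (P i)).eval x ≠ 0 := by rw [pc_eval]; exact hx i
  have h2 := (IsAlgClosed.splits (pc (P i))).eval_derivative_div_eval_of_ne_zero h1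
  have h3 : (derivative (pc (P i))).eval x = aeval x (derivative (P i)) := by
    rw [pc, derivative_map, ← pc_eval, pc]
  rw [h3, pc_eval] at h2
  rw [h2, ← Multiset.sum_map_mul_left]
  change (Multiset.map (fun t => (ζ i : ℂ) / (x - t)) (rt (P i)).val).sum = _
  rw [rt, Multiset.toFinset_val, Multiset.dedup_eq_self.2 (roots_nodup (hm i) (hi i))]
  refine congrArg Multiset.sum (Multiset.map_congr rfl fun t _ => ?_)
  ring

lemma Φ_eval {x : ℂ} (hx : ∀ i, aeval x (P i) ≠ 0) :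
    (dat P hm hi hd e he c' hc κ' hκ ζ hζ hζ0).Φ x =
      ∑ i, ζ i * Real.log ‖aeval x (P i)‖ := by
  unfold Dat.Φ
  change ∑ k, ζ (ix P k).1 * Real.log ‖x - (ix P k).2.1‖ = _
  rw [sum_ix P (fun i t => ζ i * Real.log ‖x - t‖)]
  refine Finset.sum_congr rfl fun i _ => ?_
  rw [← Finset.mul_sum]
  congr 1
  rw [← pc_eval, pc_prod (hm i) (hi i), eval_prod, norm_prod, Real.log_prod]
  · simp
  · intro t ht
    have h1 := hx i
    rw [← pc_eval, pc_prod (hm i) (hi i), eval_prod, Finset.prod_ne_zero_iff] at h1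
    exact norm_ne_zero_iff.2 (h1 t ht)

end

end BPG
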