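import Pool.Agent.BPG.Ex

set_option autoImplicit false

/-!
# BPG-Dec: the square part of the discriminant
-/

namespace BPG

open Pool.Agent.Helper11 Pool.Agent.RHE Polynomial BPH

section

variable {r : ℕ} {P : Fin (r + 1) → ℤ[X]} {e : Fin (r + 1) → ℕ} {c κ ε : ℤ}

lemma rpol_monic (F : Type*) [Field F] (hm : ∀ i, (P i).Monic) : (rpol P e F).Monic :=
  monic_prod_of_monic _ _ fun i _ => ((hm i).map _).pow _

lemma rpol_natDegree (F : Type*) [Field F] (hm : ∀ i, (P i).Monic) :
    (rpol P e F).natDegree = ∑ i, (P i).natDegree * e i := by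
  rw [rpol, natDegree_prod_of_monic _ _ fun i _ => ((hm i).map _).pow _]
  refine Finset.sum_congr rfl fun i _ => ?_
  rw [((hm i).map _).natDegree_pow, (hm i).natDegree_map, mul_comm]

lemma lin_natDegree (F : Type*) [Field F] [CharZero F] (hm : ∀ i, (P i).Monic) (hc : c ≠ 0)
    (b : F) : (C (c : F) * rpol P e F + C b).natDegree = ∑ i, (P i).natDegree * e i := by
  have hc' : (c : F) ≠ 0 := by exact_mod_cast hc
  rw [natDegree_add_C, natDegree_C_mul hc', rpol_natDegree F hm]

lemma dpol_natDegree (F : Type*) [Field F] [CharZero F] (hm : ∀ i, (P i).Monic) (hc : c ≠ 0) :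
    (dpol P e c κ ε F).natDegree = 2 * ∑ i, (P i).natDegree * e i := by
  rw [dpol, natDegree_sub_C, natDegree_pow, fpol, lin_natDegree F hm hc]

lemma deg_pos (hm : ∀ i, (P i).Monic) (hi : ∀ i, Irreducible (P i)) (he : ∀ i, e i ≠ 0) :
    0 < ∑ i, (P i).natDegree * e i := by
  have h1 : 0 < (P 0).natDegree * e 0 :=
    Nat.mul_pos (natDegree_pos (hm 0) (hi 0)) (Nat.pos_of_ne_zero (he 0))
  exact lt_of_lt_of_le h1 (Finset.single_le_sum (f := fun i => (P i).natDegree * e i)
    (fun i _ => Nat.zero_le _) (Finset.mem_univ 0))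

lemma ne_of_natDegree {F : Type*} [Field F] {p : F[X]} (h : 0 < p.natDegree) : p ≠ 0 := by
  rintro rfl
  simp at h

lemma squarefree_map {H : ℝ[X]} (hH : Squarefree H) : Squarefree (H.map (algebraMap ℝ ℂ)) :=
  ((PerfectField.separable_iff_squarefree.2 hH).map (f := algebraMap ℝ ℂ)).squarefree

lemma mult_pow {F : Type*} [Field F] (p : F[X]) (n : ℕ) (x : F) :
    (p ^ n).rootMultiplicity x = n * p.rootMultiplicity x := by
  classical
  rw [← count_roots, roots_pow, Multiset.count_nsmul, count_roots]

lemma mult_one {Q : ℤ[X]} (hm : Q.Monic) (hi : Irreducible Q) {x : ℂ} (hx : x ∈ rt Q) :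
    (pc Q).rootMultiplicity x = 1 := by
  rw [← count_roots, Multiset.count_eq_one_of_mem (roots_nodup hm hi)
    (Multiset.mem_toFinset.1 hx)]

/-- a zero of odd order of `W G² H` is a zero of `W` or of `H` -/
lemma odd_of {W G H : ℂ[X]} (h0 : W * (G ^ 2 * H) ≠ 0) {x : ℂ} (hW : W.eval x ≠ 0)
    (ho : Odd ((W * (G ^ 2 * H)).rootMultiplicity x)) : x ∈ H.roots.toFinset := by
  have hW0 : W ≠ 0 := left_ne_zero_of_mul h0
  have hGH : G ^ 2 * H ≠ 0 := right_ne_zero_of_mul h0
  have hH0 : H ≠ 0 := right_ne_zero_of_mul hGH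
  have hG2 : G ^ 2 ≠ 0 := left_ne_zero_of_mul hGH
  have hG0 : G * G ≠ 0 := by rwa [← pow_two]
  rw [rootMultiplicity_mul h0, rootMultiplicity_eq_zero (fun h => hW h), zero_add,
    rootMultiplicity_mul hGH, pow_two, rootMultiplicity_mul hG0] at ho
  rw [Multiset.mem_toFinset, mem_roots hH0, ← rootMultiplicity_pos hH0]
  by_contra hc
  push Not at hc
  rw [Nat.le_zero.1 hc, add_zero] at ho
  exact (Nat.not_odd_iff_even.2 ⟨_, rfl⟩) ho

/-- The square part of the discriminant, and the number of the zeros of odd order. -/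
theorem exists_dec (hm : ∀ i, (P i).Monic) (hi : ∀ i, Irreducible (P i))
    (hd : Function.Injective P) (he : ∀ i, e i ≠ 0) (hc : c ≠ 0) (hκ : Adm κ ε) :
    ∃ W G H : ℝ[X], G.Monic ∧ Squarefree H ∧ dpol P e c κ ε ℝ = W * (G ^ 2 * H) ∧
      (∀ x : ℂ, (∀ i, (pc (P i)).eval x ≠ 0) → (W.map (algebraMap ℝ ℂ)).eval x ≠ 0) ∧
      {β : ℂ | Odd ((dpol P e c κ ε ℂ).rootMultiplicity β)}.ncard + 2 * G.natDegree ≤
        2 * ∑ i, (P i).natDegree * ((e i + (if |κ| = 2 then 1 else 0)) /
          (if |κ| = 2 then 2 else 1)) := by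
  have hN := deg_pos hm hi he
  have hd0 : dpol P e c κ ε ℝ ≠ 0 := ne_of_natDegree (by
    rw [dpol_natDegree ℝ hm hc]
    omega)
  have hdc : dpol P e c κ ε ℂ ≠ 0 := ne_of_natDegree (by
    rw [dpol_natDegree ℂ hm hc]
    omega)
  by_cases hk : |κ| = 2
  · have hε : ε = 1 := by
      rcases hκ with ⟨h, _⟩ | ⟨_, h⟩
      · exact h
      · rw [h] at hk
        norm_num at hk
    have h5 : κ ^ 2 = 4 := by
      rw [← sq_abs, hk]
      norm_num
    have hκ0 : κ ≠ 0 := by
      rintro rfl
      norm_num at hk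
    have hB : C (c : ℝ) * rpol P e ℝ + C (2 * (κ : ℝ)) ≠ 0 := ne_of_natDegree (by
      rw [lin_natDegree ℝ hm hc]
      exact hN)
    obtain ⟨G, H, hG, hH, hGH⟩ := exists_sq_mul _ hB
    have hfac : ∀ (F : Type) [Field F], dpol P e c κ ε F =
        (C (c : F) * rpol P e F) * (C (c : F) * rpol P e F + C (2 * (κ : F))) := by
      intro F _
      have h4 : (C (4 * (ε : F)) : F[X]) = C (κ : F) ^ 2 := by
        rw [← C_pow, hε]
        congr 1
        rw [Int.cast_one, mul_one]
        have h6 := congrArg (fun n : ℤ => (n : F)) h5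
        push_cast at h6
        exact h6.symm
      rw [dpol, fpol, h4, C_mul]
      have h2 : (C (2 : F) : F[X]) = 2 := rfl
      rw [h2]
      ring
    have hfacG : dpol P e c κ ε ℝ = (C (c : ℝ) * rpol P e ℝ) * (G ^ 2 * H) := by
      rw [hfac ℝ, hGH]
    have hBm : (C (c : ℝ) * rpol P e ℝ + C (2 * (κ : ℝ))).map (algebraMap ℝ ℂ) =
        C (c : ℂ) * rpol P e ℂ + C (2 * (κ : ℂ)) := by
      rw [Polynomial.map_add, Polynomial.map_mul, rpol_map, Polynomial.map_C, Polynomial.map_C,
        map_mul, map_intCast (algebraMap ℝ ℂ) c, map_intCast (algebraMap ℝ ℂ) κ,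
        map_ofNat (algebraMap ℝ ℂ) 2]
    have hBc : C (c : ℂ) * rpol P e ℂ + C (2 * (κ : ℂ)) =
        (G.map (algebraMap ℝ ℂ)) ^ 2 * H.map (algebraMap ℝ ℂ) := by
      rw [← hBm, hGH, Polynomial.map_mul, Polynomial.map_pow]
    have hfacc : dpol P e c κ ε ℂ = (C (c : ℂ) * rpol P e ℂ) *
        ((G.map (algebraMap ℝ ℂ)) ^ 2 * H.map (algebraMap ℝ ℂ)) := by
      rw [hfac ℂ, hBc]
    have hWx : ∀ x : ℂ, (∀ i, (pc (P i)).eval x ≠ 0) → (C (c : ℂ) * rpol P e ℂ).eval x ≠ 0 := by
      intro x hx
      rw [eval_mul, eval_C, rpol, eval_prod]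
      refine mul_ne_zero (by exact_mod_cast hc) (Finset.prod_ne_zero_iff.2 fun i _ => ?_)
      rw [eval_pow]
      exact pow_ne_zero _ (hx i)
    refine ⟨C (c : ℝ) * rpol P e ℝ, G, H, hG, hH, hfacG, ?_, ?_⟩
    · intro x hx
      rw [Polynomial.map_mul, rpol_map, Polynomial.map_C, map_intCast (algebraMap ℝ ℂ) c]
      exact hWx x hx
    · -- the count
      have hsub : {β : ℂ | Odd ((dpol P e c κ ε ℂ).rootMultiplicity β)} ⊆
          (((H.map (algebraMap ℝ ℂ)).roots.toFinset ∪
            (Finset.univ.filter fun i => Odd (e i)).biUnion fun i => rt (P i) : Finset ℂ) :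
              Set ℂ) := by
        intro x hx
        rw [Set.mem_setOf_eq] at hx
        rw [Finset.mem_coe, Finset.mem_union]
        by_cases h1 : ∀ i, (pc (P i)).eval x ≠ 0
        · left
          rw [hfacc] at hx hdc
          exact odd_of hdc (hWx x h1) hx
        · right
          push Not at h1
          obtain ⟨i, hix⟩ := h1
          have hxi : x ∈ rt (P i) := (mem_rt (hm i)).2 hix
          rw [Finset.mem_biUnion]
          refine ⟨i, Finset.mem_filter.2 ⟨Finset.mem_univ _, ?_⟩, hxi⟩
          -- the multiplicity is `e i`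
          have hrest : (∏ j ∈ Finset.univ.erase i, (pc (P j)) ^ e j).eval x ≠ 0 := by
            rw [eval_prod, Finset.prod_ne_zero_iff]
            intro j hj
            rw [eval_pow]
            refine pow_ne_zero _ fun h => ?_
            exact rt_disjoint (hm i) (hi i) (hm j) (hi j)
              (fun h' => (Finset.ne_of_mem_erase hj) (hd h').symm) hxi ((mem_rt (hm j)).2 h)
          have hBx : (C (c : ℂ) * rpol P e ℂ + C (2 * (κ : ℂ))).eval x ≠ 0 := by
            rw [eval_add, eval_mul, rpol, eval_prod, Finset.prod_eq_zero (Finset.mem_univ i),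
              mul_zero, zero_add, eval_C]
            · exact mul_ne_zero two_ne_zero (by exact_mod_cast hκ0)
            · rw [eval_pow]
              change ((pc (P i)).eval x) ^ e i = 0
              rw [hix, zero_pow (he i)]
          have hr : rpol P e ℂ = (pc (P i)) ^ e i *
              ∏ j ∈ Finset.univ.erase i, (pc (P j)) ^ e j := by
            rw [rpol, ← Finset.mul_prod_erase _ _ (Finset.mem_univ i)]
            rfl
          have hne1 : (C (c : ℂ) * rpol P e ℂ) * (C (c : ℂ) * rpol P e ℂ + C (2 * (κ : ℂ))) ≠ 0 := by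
            rw [← hfac ℂ]
            exact hdc
          have hne2 := left_ne_zero_of_mul hne1
          have hne3 := right_ne_zero_of_mul hne2
          rw [hfac ℂ, rootMultiplicity_mul hne1, rootMultiplicity_eq_zero (fun h => hBx h),
            add_zero, rootMultiplicity_mul hne2, rootMultiplicity_C, zero_add, hr,
            rootMultiplicity_mul (by rw [← hr]; exact hne3),
            rootMultiplicity_eq_zero (fun h => hrest h), add_zero, mult_pow,
            mult_one (hm i) (hi i) hxi, mul_one] at hx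
          exact hx
      have hcard := Set.ncard_le_ncard hsub (Finset.finite_toSet _)
      rw [Set.ncard_coe_finset] at hcard
      have h1 := hcard.trans (Finset.card_union_le _ _)
      have h2 : (H.map (algebraMap ℝ ℂ)).roots.toFinset.card ≤ H.natDegree := by
        refine (Multiset.toFinset_card_le _).trans ((card_roots' _).trans ?_)
        exact natDegree_map_le
      have h3 : ((Finset.univ.filter fun i => Odd (e i)).biUnion fun i => rt (P i)).card ≤
          ∑ i, if Odd (e i) then (P i).natDegree else 0 := by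
        refine Finset.card_biUnion_le.trans ?_
        rw [Finset.sum_filter]
        refine Finset.sum_le_sum fun i _ => ?_
        split_ifs
        · exact (rt_card (hm i) (hi i)).le
        · exact le_rfl
      have h4 : 2 * G.natDegree + H.natDegree = ∑ i, (P i).natDegree * e i := by
        rw [← lin_natDegree ℝ hm hc (2 * (κ : ℝ)), hGH,
          natDegree_mul (pow_ne_zero 2 hG.ne_zero) hH.ne_zero, natDegree_pow]
      have h6 : ∑ i, (P i).natDegree * e i + ∑ i, (if Odd (e i) then (P i).natDegree else 0) =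
          2 * ∑ i, (P i).natDegree * ((e i + (if |κ| = 2 then 1 else 0)) /
          (if |κ| = 2 then 2 else 1)) := by
        rw [if_pos hk, if_pos hk, ← Finset.sum_add_distrib, Finset.mul_sum]
        refine Finset.sum_congr rfl fun i _ => ?_
        split_ifs with h7
        · obtain ⟨m, hm'⟩ := h7
          have h8 : (e i + 1) / 2 = m + 1 := by omega
          rw [h8, hm']
          ring
        · rw [Nat.not_odd_iff_even] at h7
          obtain ⟨m, hm'⟩ := h7
          have h8 : (e i + 1) / 2 = m := by omega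
          rw [h8, hm']
          ring
      rw [← h6]
      omega
  · obtain ⟨G, H, hG, hH, hGH⟩ := exists_sq_mul _ hd0
    have hc1 : dpol P e c κ ε ℂ = 1 * ((G.map (algebraMap ℝ ℂ)) ^ 2 * H.map (algebraMap ℝ ℂ)) := by
      rw [← dpol_map (algebraMap ℝ ℂ), hGH, Polynomial.map_mul, Polynomial.map_pow, one_mul]
    refine ⟨1, G, H, hG, hH, by rw [one_mul, hGH], ?_, ?_⟩
    · intro x _
      rw [Polynomial.map_one, eval_one]
      exact one_ne_zero
    · have hsub : {β : ℂ | Odd ((dpol P e c κ ε ℂ).rootMultiplicity β)} ⊆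
          ((H.map (algebraMap ℝ ℂ)).roots.toFinset : Set ℂ) := by
        intro x hx
        rw [Set.mem_setOf_eq, hc1] at hx
        rw [hc1] at hdc
        exact odd_of hdc (by rw [eval_one]; exact one_ne_zero) hx
      have hcard := Set.ncard_le_ncard hsub (Finset.finite_toSet _)
      rw [Set.ncard_coe_finset] at hcard
      have h2 : (H.map (algebraMap ℝ ℂ)).roots.toFinset.card ≤ H.natDegree := by
        refine (Multiset.toFinset_card_le _).trans ((card_roots' _).trans ?_)
        exact natDegree_map_le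
      have h4 : 2 * G.natDegree + H.natDegree = 2 * ∑ i, (P i).natDegree * e i := by
        rw [← dpol_natDegree (κ := κ) (ε := ε) ℝ hm hc, hGH,
          natDegree_mul (pow_ne_zero 2 hG.ne_zero) hH.ne_zero, natDegree_pow]
      rw [if_neg hk, if_neg hk]
      simp only [add_zero, Nat.div_one]
      omega

end

end BPG
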