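import Pool.Agent.BPG.Fam

set_option autoImplicit false

/-!
# BPG-Ex: existence of loops with non-zero regulator
-/

namespace BPG

open Pool.Agent.Helper11 Pool.Agent.RHE Polynomial

/-- the real polynomial of an integer polynomial -/
noncomputable def pr (P : ℤ[X]) : ℝ[X] := P.map (Int.castRingHom ℝ)

lemma pr_map (P : ℤ[X]) : (pr P).map (algebraMap ℝ ℂ) = pc P := by
  rw [pr, pc, Polynomial.map_map]
  congr 1

section

variable {r : ℕ} (P : Fin (r + 1) → ℤ[X])

/-- the numerator of `F` -/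
noncomputable def apol (ζ : Fin (r + 1) → ℝ) : ℝ[X] :=
  ∑ i, C (ζ i) * (derivative (pr (P i)) * ∏ j ∈ Finset.univ.erase i, pr (P j))

variable (e : Fin (r + 1) → ℕ) (c κ ε : ℤ)

/-- the product -/
noncomputable def rpol (F : Type*) [Field F] : F[X] :=
  ∏ i, ((P i).map (Int.castRingHom F)) ^ e i

/-- the right side of the equation -/
noncomputable def fpol (F : Type*) [Field F] : F[X] := C (c : F) * rpol P e F + C (κ : F)

/-- the discriminant -/
noncomputable def dpol (F : Type*) [Field F] : F[X] := fpol P e c κ F ^ 2 - C (4 * (ε : F))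

variable {P e c κ ε}

lemma rpol_map {F L : Type*} [Field F] [Field L] (f : F →+* L) :
    (rpol P e F).map f = rpol P e L := by
  rw [rpol, rpol, Polynomial.map_prod]
  refine Finset.prod_congr rfl fun i _ => ?_
  rw [Polynomial.map_pow, Polynomial.map_map]
  congr 2
  exact RingHom.ext_int _ _

lemma fpol_map {F L : Type*} [Field F] [Field L] (f : F →+* L) :
    (fpol P e c κ F).map f = fpol P e c κ L := by
  rw [fpol, fpol, Polynomial.map_add, Polynomial.map_mul, rpol_map, Polynomial.map_C,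
    Polynomial.map_C, map_intCast f c, map_intCast f κ]

lemma dpol_map {F L : Type*} [Field F] [Field L] (f : F →+* L) :
    (dpol P e c κ ε F).map f = dpol P e c κ ε L := by
  rw [dpol, dpol, Polynomial.map_sub, Polynomial.map_pow, fpol_map, Polynomial.map_C, map_mul,
    map_intCast f ε, map_ofNat f 4]

variable (P) in
lemma exists_aux (hm : ∀ i, (P i).Monic) (hi : ∀ i, Irreducible (P i)) (hd : Function.Injective P)
    (he : ∀ i, e i ≠ 0) (c' : ℂ) (hc : c' ≠ 0) (κ' : ℝ) (hκ : |κ'| ≤ 2)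
    {y : Fin r → ℝ} (hy : y ≠ 0) (G H W : ℝ[X]) (s : ℂ) (hs : s ≠ 0)
    (hΔ : (C c' * rpol P e ℂ + C (κ' : ℂ)) ^ 2 - C 4 = C s * (W * (G ^ 2 * H)).map (algebraMap ℝ ℂ))
    (hW : ∀ x, (∀ i, (pc (P i)).eval x ≠ 0) → (W.map (algebraMap ℝ ℂ)).eval x ≠ 0)
    (hH : Squarefree H) (hG : G ∣ apol P (zz P y)) :
    ∃ ξ ω : ℝ → ℂ, ξ ∈ LoopRing ∧ ω ∈ LoopRing ∧ (∀ t, Transcendental ℚ (ξ t)) ∧ (∀ t, ω t ≠ 0) ∧
      (∀ t, ω t + (ω t)⁻¹ = c' * ∏ i, (aeval (ξ t) (P i)) ^ e i + κ') ∧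
      ∑ i, y i * regInt (fun t => aeval (ξ t) (P i.succ) ^ (P 0).natDegree /
        aeval (ξ t) (P 0) ^ (P i.succ).natDegree) ω ≠ 0 := by
  have hζ0 : zz P y ≠ 0 := zz_ne (natDegree_pos (hm 0) (hi 0)).ne' hy
  set D := dat P hm hi hd e he c' hc κ' hκ (zz P y) (sum_zz P y) hζ0 with hD
  have hRp : ∀ x, D.R.eval x ≠ 0 → ∀ i, aeval x (P i) ≠ 0 := by
    intro x hx i h0
    apply hx
    rw [hD, R_eval, Finset.prod_eq_zero (Finset.mem_univ i) (by rw [h0, zero_pow (he i)]),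
      mul_zero]
  have hG' : D.Good := by
    refine good_of_dvd D ((apol P (zz P y)).map (algebraMap ℝ ℂ)) (∏ i, pc (P i))
      (G.map (algebraMap ℝ ℂ)) (H.map (algebraMap ℝ ℂ)) (C s * W.map (algebraMap ℝ ℂ))
      ?_ ?_ ?_ ?_ ?_ (Polynomial.map_dvd _ hG)
    · intro x hx
      rw [hD, F_eval P hm hi hd e he c' hc κ' hκ _ _ _ (hRp x hx), apol, Polynomial.map_sum,
        eval_finset_sum, Finset.sum_mul]
      refine Finset.sum_congr rfl fun i _ => ?_
      rw [Polynomial.map_mul, Polynomial.map_mul, map_C, Polynomial.map_prod, ← derivative_map,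
        pr_map, eval_mul, eval_mul, eval_C, eval_prod, eval_prod,
        ← Finset.mul_prod_erase _ _ (Finset.mem_univ i)]
      have h1 := hRp x hx i
      have h3 : (derivative (pc (P i))).eval x = aeval x (derivative (P i)) := by
        rw [pc, derivative_map, ← pc_eval, pc]
      simp only [pr_map, h3, pc_eval]
      change (zz P y i : ℂ) * _ * _ = (zz P y i : ℂ) * _
      field_simp
    · intro x hx
      rw [eval_prod, Finset.prod_ne_zero_iff]
      intro i _
      rw [pc_eval]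
      exact hRp x hx i
    · have h1 : D.Δ = (C c' * rpol P e ℂ + C (κ' : ℂ)) ^ 2 - C 4 := by
        rw [Dat.Δ, Dat.Q, hD, R_eq]
        rfl
      rw [h1, hΔ, Polynomial.map_mul, Polynomial.map_mul, Polynomial.map_pow]
      ring
    · intro x hx
      rw [eval_mul, eval_C]
      exact mul_ne_zero hs (hW x fun i => by rw [pc_eval]; exact hRp x hx i)
    · exact ((PerfectField.separable_iff_squarefree.2 hH).map (f := algebraMap ℝ ℂ)).squarefree
  obtain ⟨ξ, ω, hl, ht, hI⟩ := D.an hG'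
  have hξ : ξ ∈ LoopRing := ⟨hl.cξ.of_le (by norm_num), hl.pξ⟩
  have hω : ω ∈ LoopRing := ⟨hl.cω.of_le (by norm_num), hl.pω⟩
  have hω0 : ∀ t, ω t ≠ 0 := fun t => (hl.pt t).w_ne
  refine ⟨ξ, ω, hξ, hω, ht, hω0, fun t => ?_, ?_⟩
  · rw [← (hl.pt t).Q_eq, D.Q_eval, hD, R_eval]
    rfl
  · rw [← int_rho P hm hi hd e he c' hc κ' hκ y hζ0 hξ ht ⟨hω.1, hω.2, hω0⟩]
    exact hI

end

end BPG
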