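import Pool.Agent.RHE.Out

set_option autoImplicit false

/-!
# BPG-Good: a sufficient condition for `Good`
-/

namespace BPG

open Pool.Agent.RHE Polynomial

theorem good_of_dvd (D : Dat) (A B G H W : ℂ[X])
    (hAB : ∀ x, D.R.eval x ≠ 0 → D.F x * B.eval x = A.eval x)
    (hB : ∀ x, D.R.eval x ≠ 0 → B.eval x ≠ 0) (hΔ : D.Δ = W * (G ^ 2 * H))
    (hW : ∀ x, D.R.eval x ≠ 0 → W.eval x ≠ 0) (hH : Squarefree H) (hG : G ∣ A) : D.Good := by
  intro s _ hR
  have hΔ0 : D.Δ ≠ 0 := D.Δ_ne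
  have hG0 : G ≠ 0 := by
    rintro rfl
    apply hΔ0
    rw [hΔ]
    ring
  have hH0 : H ≠ 0 := hH.ne_zero
  obtain ⟨G₁, hG₁, hG₁s⟩ := exists_eq_pow_rootMultiplicity_mul_and_not_dvd G hG0 s
  obtain ⟨H₁, hH₁, hH₁s⟩ := exists_eq_pow_rootMultiplicity_mul_and_not_dvd H hH0 s
  obtain ⟨A₁, hA₁⟩ := hG
  set μ := G.rootMultiplicity s
  set η := H.rootMultiplicity s with hη
  have hη1 : η ≤ 1 := by
    by_contra h
    push Not at h
    have h1 : (X - C s) ^ 2 ∣ H := (pow_dvd_pow _ h).trans (pow_rootMultiplicity_dvd H s)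
    rw [pow_two] at h1
    exact not_isUnit_X_sub_C s (hH _ h1)
  rw [dvd_iff_isRoot, IsRoot.def] at hG₁s hH₁s
  -- the function `F / (x - s)^μ`
  set f₁ : ℂ → ℝ := fun x => ‖(G₁ * A₁).eval x‖ / ‖B.eval x‖ with hf₁
  set f₂ : ℂ → ℝ := fun x => ‖(W * G₁ ^ 2 * H₁).eval x‖ with hf₂
  have hc₁ : ContinuousAt f₁ s :=
    ((G₁ * A₁).continuous.norm.continuousAt).div (B.continuous.norm.continuousAt)
      (norm_ne_zero_iff.2 (hB s hR))
  have hc₂ : ContinuousAt f₂ s := (W * G₁ ^ 2 * H₁).continuous.norm.continuousAt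
  have hp₂ : 0 < f₂ s := by
    rw [hf₂]
    refine norm_pos_iff.2 ?_
    rw [eval_mul, eval_mul, eval_pow]
    exact mul_ne_zero (mul_ne_zero (hW s hR) (pow_ne_zero _ hG₁s)) hH₁s
  have hcR : ContinuousAt (fun x => ‖D.R.eval x‖) s := D.R.continuous.norm.continuousAt
  have e1 := hc₁.eventually_lt_const (show f₁ s < f₁ s + 1 by linarith)
  have e2 := hc₂.eventually_const_lt (half_lt_self hp₂)
  have e3 := hcR.eventually_const_lt (norm_pos_iff.2 hR)
  obtain ⟨δ, hδ, hh⟩ := Metric.eventually_nhds_iff.1 (e1.and (e2.and e3))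
  refine ⟨(f₁ s + 1) ^ 2 / (f₂ s / 2), min δ 1, lt_min hδ one_pos, fun x hx0 hx => ?_⟩
  obtain ⟨h1, h2, h3⟩ := hh (by rw [dist_eq_norm]; exact lt_of_lt_of_le hx (min_le_left _ _))
  have hx1 : ‖x - s‖ ≤ 1 := (lt_of_lt_of_le hx (min_le_right _ _)).le
  have hRx : D.R.eval x ≠ 0 := norm_pos_iff.1 h3
  have hBx : ‖B.eval x‖ ≠ 0 := norm_ne_zero_iff.2 (hB x hRx)
  have hF : ‖D.F x‖ = ‖x - s‖ ^ μ * f₁ x := by
    have h4 : ‖D.F x‖ * ‖B.eval x‖ = ‖x - s‖ ^ μ * ‖(G₁ * A₁).eval x‖ := by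
      rw [← norm_mul, hAB x hRx, hA₁, hG₁, ← norm_pow, ← norm_mul, mul_assoc, eval_mul, eval_pow,
        eval_sub, eval_X, eval_C]
    rw [hf₁]
    field_simp
    linarith [h4]
  have hD : ‖D.Δ.eval x‖ = ‖x - s‖ ^ (2 * μ + η) * f₂ x := by
    have h4 : D.Δ = (X - C s) ^ (2 * μ + η) * (W * G₁ ^ 2 * H₁) := by
      rw [hΔ, hG₁, hH₁]
      ring
    rw [h4, eval_mul, norm_mul, eval_pow, norm_pow, eval_sub, eval_X, eval_C]
  have h5 : f₁ x ≤ f₁ s + 1 := h1.le
  have h50 : 0 ≤ f₁ x := by rw [hf₁]; positivity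
  have h6 : ‖x - s‖ ^ (2 * μ + 1) ≤ ‖x - s‖ ^ (2 * μ + η) :=
    pow_le_pow_of_le_one (norm_nonneg _) hx1 (by omega)
  have hC : 0 ≤ (f₁ s + 1) ^ 2 / (f₂ s / 2) := by positivity
  calc ‖D.F x‖ ^ 2 * ‖x - s‖ = ‖x - s‖ ^ (2 * μ + 1) * f₁ x ^ 2 := by rw [hF]; ring
    _ ≤ ‖x - s‖ ^ (2 * μ + η) * (f₁ s + 1) ^ 2 :=
        mul_le_mul h6 (pow_le_pow_left₀ h50 h5 2) (sq_nonneg _) (by positivity)
    _ = (f₁ s + 1) ^ 2 / (f₂ s / 2) * (‖x - s‖ ^ (2 * μ + η) * (f₂ s / 2)) := by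
        field_simp
    _ ≤ (f₁ s + 1) ^ 2 / (f₂ s / 2) * ‖D.Δ.eval x‖ := by
        rw [hD]
        exact mul_le_mul_of_nonneg_left (mul_le_mul_of_nonneg_left h2.le (by positivity)) hC

/-- every polynomial is a square times a squarefree one -/
theorem exists_sq_mul {F : Type*} [Field F] (p : F[X]) (hp : p ≠ 0) :
    ∃ G H : F[X], G.Monic ∧ Squarefree H ∧ p = G ^ 2 * H := by
  induction hn : p.natDegree using Nat.strong_induction_on generalizing p with
  | _ n ih =>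
    by_cases hs : Squarefree p
    · exact ⟨1, p, monic_one, hs, by ring⟩
    · unfold Squarefree at hs
      push Not at hs
      obtain ⟨q, hq, hqu⟩ := hs
      obtain ⟨p', hp'⟩ := hq
      have hq0 : q ≠ 0 := by
        rintro rfl
        apply hp
        rw [hp']
        ring
      have hp'0 : p' ≠ 0 := by
        rintro rfl
        apply hp
        rw [hp']
        ring
      have hqd : 0 < q.natDegree := by
        by_contra h
        push Not at h
        apply hqu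
        exact isUnit_iff_degree_eq_zero.2 (by
          rw [degree_eq_natDegree hq0]
          simp only [Nat.le_zero.1 h, Nat.cast_zero])
      have hd : p'.natDegree < n := by
        rw [← hn, hp', natDegree_mul (mul_ne_zero hq0 hq0) hp'0, natDegree_mul hq0 hq0]
        omega
      obtain ⟨G, H, hG, hH, h⟩ := ih _ hd p' hp'0 rfl
      set l := q.leadingCoeff with hl
      have hl0 : l ≠ 0 := leadingCoeff_ne_zero.2 hq0
      refine ⟨q * C l⁻¹ * G, C (l ^ 2) * H, ?_, ?_, ?_⟩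
      · exact (monic_mul_leadingCoeff_inv hq0).mul hG
      · exact (associated_unit_mul_left H (C (l ^ 2))
          (isUnit_C.2 (isUnit_iff_ne_zero.2 (pow_ne_zero 2 hl0)))).squarefree_iff.2 hH
      · rw [hp', h]
        have h1 : (C l⁻¹ : F[X]) ^ 2 * C (l ^ 2) = 1 := by
          rw [← C_pow, ← C_mul, ← C_1]
          congr 1
          field_simp
        linear_combination (-(q * q * G ^ 2 * H)) * h1

end BPG
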