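import Pool.Agent.BPG.Dat
import Pool.Agent.BPG.Good
import Pool.Agent.BPH.Fam

set_option autoImplicit false

/-!
# BPG-Fam: the integral of the regulator form, existence of loops
-/

namespace BPG

open Pool.Agent.Helper11 Pool.Agent.RHE Polynomial

lemma aeval_apply {ξ : ℝ → ℂ} (hξ : ξ ∈ LoopRing) (P : ℤ[X]) :
    ((aeval (⟨ξ, hξ⟩ : LoopRing) P : LoopRing) : ℝ → ℂ) = fun t => aeval (ξ t) P := by
  funext t
  have h1 := aeval_algHom_apply (((Pi.evalRingHom (fun _ : ℝ => ℂ) t).comp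
    LoopRing.subtype).toIntAlgHom) (⟨ξ, hξ⟩ : LoopRing) P
  exact h1.symm

lemma aeval_ne {z : ℂ} (h : Transcendental ℚ z) {P : ℤ[X]} (hP : P ≠ 0) : aeval z P ≠ 0 := by
  intro h0
  have h1 : Transcendental ℤ z := fun ha => h (ha.extendScalars (Int.cast_injective (α := ℚ)))
  exact hP (transcendental_iff.1 h1 P h0)

lemma isLoop_aeval {ξ : ℝ → ℂ} (hξ : ξ ∈ LoopRing) (ht : ∀ t, Transcendental ℚ (ξ t)) {P : ℤ[X]}
    (hP : P ≠ 0) : IsLoop (fun t => aeval (ξ t) P) := by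
  have h1 := (aeval (⟨ξ, hξ⟩ : LoopRing) P : LoopRing).2
  rw [aeval_apply hξ P] at h1
  exact ⟨h1.1, h1.2, fun t => aeval_ne (ht t) hP⟩

lemma deriv_aeval {ξ : ℝ → ℂ} {t : ℝ} (h : DifferentiableAt ℝ ξ t) (P : ℤ[X]) :
    deriv (fun t => aeval (ξ t) P) t = aeval (ξ t) (derivative P) * deriv ξ t := by
  have h1 : HasDerivAt (fun x : ℂ => (pc P).eval x) ((derivative (pc P)).eval (ξ t)) (ξ t) :=
    (pc P).hasDerivAt (ξ t)
  have h2 := h1.scomp t h.hasDerivAt
  have h3 : (fun t => aeval (ξ t) P) = (fun x : ℂ => (pc P).eval x) ∘ ξ := by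
    funext t
    rw [Function.comp_apply, pc_eval]
  rw [h3, h2.deriv, smul_eq_mul, mul_comm]
  congr 1
  rw [pc, derivative_map, ← pc_eval, pc]

section

variable {r : ℕ} (P : Fin (r + 1) → ℤ[X])

/-- the coefficients -/
noncomputable def zz (y : Fin r → ℝ) : Fin (r + 1) → ℝ :=
  Fin.cons (-∑ i, (P i.succ).natDegree * y i) (fun i => (P 0).natDegree * y i)

lemma sum_zz (y : Fin r → ℝ) : ∑ i, (P i).natDegree * zz P y i = 0 := by
  unfold zz
  rw [Fin.sum_univ_succ]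
  simp only [Fin.cons_zero, Fin.cons_succ]
  rw [mul_neg, Finset.mul_sum, neg_add_eq_zero]
  exact Finset.sum_congr rfl fun i _ => by ring

variable {P}

lemma zz_ne (hn : (P 0).natDegree ≠ 0) {y : Fin r → ℝ} (hy : y ≠ 0) : zz P y ≠ 0 := by
  intro h
  apply hy
  funext i
  have := congrFun h i.succ
  simp only [zz, Fin.cons_succ, Pi.zero_apply, mul_eq_zero, Nat.cast_eq_zero] at this
  exact this.resolve_left hn

lemma zz_sum (y : Fin r → ℝ) (f : Fin (r + 1) → ℝ) :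
    ∑ i, zz P y i * f i =
      ∑ i, y i * ((P 0).natDegree * f i.succ - (P i.succ).natDegree * f 0) := by
  unfold zz
  rw [Fin.sum_univ_succ]
  simp only [Fin.cons_zero, Fin.cons_succ, mul_sub, Finset.sum_sub_distrib, neg_mul,
    Finset.sum_mul]
  rw [neg_add_eq_sub]
  congr 1
  · exact Finset.sum_congr rfl fun i _ => by ring
  · exact Finset.sum_congr rfl fun i _ => by ring

lemma regInt_pow {φ ψ : ℝ → ℂ} (h₁ : IsLoop φ) (h : IsLoop ψ) (n : ℕ) :
    regInt (φ ^ n) ψ = n * regInt φ ψ := by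
  induction n with
  | zero => rw [pow_zero, BPH.regInt_const_one, Nat.cast_zero, zero_mul]
  | succ n ih =>
    have h2 : IsLoop (φ ^ n) := ⟨h₁.1.pow n, fun t => by
      simp only [Pi.pow_apply]
      rw [h₁.2 t], fun t => pow_ne_zero _ (h₁.3 t)⟩
    rw [pow_succ, regInt_mul_left h2 h₁ h, ih]
    push_cast
    ring

variable (P) in
/-- the integral of the regulator form is the combination of regulators -/
theorem int_rho (hm : ∀ i, (P i).Monic) (hi : ∀ i, Irreducible (P i)) (hd : Function.Injective P)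
    (e : Fin (r + 1) → ℕ) (he : ∀ i, e i ≠ 0) (c' : ℂ) (hc : c' ≠ 0) (κ' : ℝ) (hκ : |κ'| ≤ 2)
    (y : Fin r → ℝ) (hζ0 : zz P y ≠ 0) {ξ ω : ℝ → ℂ} (hξ : ξ ∈ LoopRing)
    (ht : ∀ t, Transcendental ℚ (ξ t)) (hω : IsLoop ω) :
    ∫ t in (0 : ℝ)..(2 * Real.pi),
      (dat P hm hi hd e he c' hc κ' hκ (zz P y) (sum_zz P y) hζ0).ρ ξ ω t =
      ∑ i, y i * regInt (fun t => aeval (ξ t) (P i.succ) ^ (P 0).natDegree /
        aeval (ξ t) (P 0) ^ (P i.succ).natDegree) ω := by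
  have hP : ∀ i, P i ≠ 0 := fun i => (hm i).ne_zero
  have hl : ∀ i, IsLoop (fun t => aeval (ξ t) (P i)) := fun i => isLoop_aeval hξ ht (hP i)
  have hdiff : ∀ t, DifferentiableAt ℝ ξ t := fun t => (hξ.1.differentiable (by norm_num)) t
  have h1 : ∀ t, (dat P hm hi hd e he c' hc κ' hκ (zz P y) (sum_zz P y) hζ0).ρ ξ ω t =
      ∑ i, zz P y i * (Real.log ‖aeval (ξ t) (P i)‖ * (deriv ω t / ω t).im -
        Real.log ‖ω t‖ *
          (deriv (fun t => aeval (ξ t) (P i)) t / aeval (ξ t) (P i)).im) := by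
    intro t
    unfold Dat.ρ
    rw [Φ_eval P hm hi hd e he c' hc κ' hκ _ _ _ (fun i => aeval_ne (ht t) (hP i)),
      F_eval P hm hi hd e he c' hc κ' hκ _ _ _ (fun i => aeval_ne (ht t) (hP i)),
      Finset.sum_mul, Finset.sum_mul, Complex.im_sum, Finset.mul_sum, ← Finset.sum_sub_distrib]
    refine Finset.sum_congr rfl fun i _ => ?_
    rw [deriv_aeval (hdiff t)]
    have : (zz P y i : ℂ) * (aeval (ξ t) (derivative (P i)) / aeval (ξ t) (P i)) * deriv ξ t =
        (zz P y i : ℂ) * (aeval (ξ t) (derivative (P i)) * deriv ξ t / aeval (ξ t) (P i)) := by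
      ring
    rw [this, Complex.im_ofReal_mul]
    ring
  simp_rw [h1]
  rw [intervalIntegral.integral_finset_sum fun i _ => (((hl i).intg hω _ _).const_mul _)]
  simp_rw [intervalIntegral.integral_const_mul]
  refine (zz_sum y (fun i => regInt (fun t => aeval (ξ t) (P i)) ω)).trans ?_
  refine Finset.sum_congr rfl fun i _ => ?_
  congr 1
  have hp : ∀ i n, IsLoop ((fun t => aeval (ξ t) (P i)) ^ n) := fun i n =>
    ⟨(hl i).1.pow n, fun t => by
      simp only [Pi.pow_apply]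
      rw [hξ.2 t], fun t => pow_ne_zero _ ((hl i).3 t)⟩
  have h3 : (fun t => aeval (ξ t) (P i.succ) ^ (P 0).natDegree /
        aeval (ξ t) (P 0) ^ (P i.succ).natDegree) =
      (fun t => aeval (ξ t) (P i.succ)) ^ (P 0).natDegree *
        ((fun t => aeval (ξ t) (P 0)) ^ (P i.succ).natDegree)⁻¹ := by
    funext t
    simp [div_eq_mul_inv]
  rw [h3, regInt_mul_left (hp _ _) (hp _ _).inv hω, BPH.regInt_inv_left (hp _ _) hω,
    regInt_pow (hl _) hω, regInt_pow (hl _) hω]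
  ring

end

end BPG
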