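import Pool.Agent.BPH.Int

set_option autoImplicit false

/-!
# BPG-Int: the symbols `{P_i(x)^(n_0)/P_0(x)^(n_i), w}` on `w + ε/w = c ∏ P_i(x)^(e i) + κ` are
integral
-/

namespace BPG

open Pool.Agent.Helper11 BPH Polynomial

variable {K : Type*} [Field K]

lemma val_int (O : ValuationSubring K) (n : ℤ) : O.valuation (n : K) ≤ 1 := by
  rw [O.valuation_le_one_iff]
  exact intCast_mem O n

lemma val_aeval_le (O : ValuationSubring K) {x : K} (hx : O.valuation x ≤ 1) (P : ℤ[X]) :
    O.valuation (aeval x P) ≤ 1 := by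
  rw [O.valuation_le_one_iff] at hx ⊢
  rw [aeval_eq_sum_range]
  refine sum_mem fun i _ => ?_
  rw [zsmul_eq_mul]
  exact mul_mem (intCast_mem O _) (pow_mem hx i)

/-- at a pole of `x` a monic polynomial is equivalent to its leading term -/
lemma val_monic_sub (O : ValuationSubring K) {x : K} (hx : 1 < O.valuation x) {P : ℤ[X]}
    (hP : P.Monic) : O.valuation (aeval x P / x ^ P.natDegree - 1) < 1 := by
  have hx0 : x ≠ 0 := by
    rintro rfl
    rw [map_zero] at hx
    exact absurd hx (not_lt.2 zero_le_one)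
  have h1 : aeval x P / x ^ P.natDegree - 1 =
      ∑ i ∈ Finset.range P.natDegree, (P.coeff i : K) * (x⁻¹) ^ (P.natDegree - i) := by
    rw [aeval_eq_sum_range, Finset.sum_range_succ, hP.coeff_natDegree, one_smul, add_div,
      div_self (pow_ne_zero _ hx0), add_sub_cancel_right, Finset.sum_div]
    refine Finset.sum_congr rfl fun i hi => ?_
    rw [Finset.mem_range] at hi
    rw [zsmul_eq_mul, inv_pow, mul_div_assoc]
    congr 1
    rw [div_eq_iff (pow_ne_zero _ hx0), eq_comm, inv_mul_eq_iff_eq_mul₀ (pow_ne_zero _ hx0),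
      ← pow_add]
    congr 1
    omega
  rw [h1]
  refine Valuation.map_sum_lt _ one_ne_zero fun i hi => ?_
  rw [Finset.mem_range] at hi
  rw [map_mul, map_pow, map_inv₀, mul_comm]
  exact mul_lt_one_of_lt_of_le (pow_lt_one₀ zero_le (inv_lt_one_of_one_lt₀ hx) (by omega))
    (val_int O _)

private lemma one_lt_val (O : ValuationSubring K) {w : K} (hw0 : w ≠ 0) {ε : ℤ} (hε : ε = 1 ∨ ε = -1)
    (hw : O.valuation w ≠ 1) : 1 < O.valuation (w + ε * w⁻¹) := by
  have hva : O.valuation w ≠ 0 := (Valuation.ne_zero_iff _).2 hw0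
  have hεv : O.valuation ((ε : K) * w⁻¹) = O.valuation w⁻¹ := by
    rw [map_mul]
    rcases hε with rfl | rfl
    · simp
    · push_cast
      rw [Valuation.map_neg, map_one, one_mul]
  rcases lt_or_gt_of_ne hw with h | h
  · have h1 : 1 < O.valuation w⁻¹ := by
      rw [map_inv₀]
      exact (one_lt_inv₀ (zero_lt_iff.2 hva)).2 h
    have h2 : O.valuation (w + ε * w⁻¹) = O.valuation w⁻¹ := by
      rw [Valuation.map_add_eq_of_lt_right _ (by rw [hεv]; exact h.trans h1), hεv]
    rw [h2]
    exact h1
  · have h1 : O.valuation w⁻¹ < 1 := by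
      rw [map_inv₀]
      exact inv_lt_one_of_one_lt₀ h
    have h2 : O.valuation (w + ε * w⁻¹) = O.valuation w :=
      Valuation.map_add_eq_of_lt_left _ (by rw [hεv]; exact h1.trans h)
    rw [h2]
    exact h

/-- The symbol `{P(x)^(deg Q)/Q(x)^(deg P), w}` is integral. -/
theorem sym_integral {r : ℕ} (P : Fin r → ℤ[X]) (hP : ∀ i, (P i).Monic) (e : Fin r → ℕ)
    (he : ∀ i, e i ≠ 0) (c κ ε : ℤ) (hκ : Adm κ ε) (x : K) (w : Kˣ) (p : Fin r → Kˣ)
    (hp : ∀ i, (p i : K) = aeval x (P i))
    (h : (w : K) + ε * (w : K)⁻¹ = c * ∏ i, (aeval x (P i)) ^ e i + κ) (i j : Fin r) :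
    sym (p i ^ (P j).natDegree * (p j ^ (P i).natDegree)⁻¹) w ∈ integralPart K := by
  rw [mem_integralPart]
  intro O hO
  have hε : ε = 1 ∨ ε = -1 := by
    rcases hκ with ⟨h, _⟩ | ⟨h, _⟩
    · exact Or.inl h
    · exact Or.inr h
  by_cases hxO : O.valuation x ≤ 1
  · -- `x` is integral
    have hle : ∀ l, O.valuation (aeval x (P l)) ≤ 1 := fun l => val_aeval_le O hxO _
    have hRle : O.valuation ((c : K) * ∏ i, (aeval x (P i)) ^ e i) ≤ 1 := by
      rw [map_mul, map_prod]
      refine mul_le_one' (val_int O c) (Finset.prod_le_one' fun k _ => ?_)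
      rw [map_pow]
      exact pow_le_one' (hle k) _
    have hw : O.valuation (w : K) = 1 := by
      by_contra hw
      have h1 := one_lt_val O w.ne_zero hε hw
      rw [h] at h1
      exact absurd h1 (not_lt.2 ((Valuation.map_add _ _ _).trans (max_le hRle (val_int O _))))
    by_cases hu1 : O.valuation ((p i ^ (P j).natDegree * (p j ^ (P i).natDegree)⁻¹ : Kˣ) : K) = 1
    · exact sym_mem_unr O hu1 hw
    · have hex : ∃ l, O.valuation (aeval x (P l)) < 1 := by
        by_contra hc
        push Not at hc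
        apply hu1
        have h2 : ∀ l, O.valuation (p l : K) = 1 := fun l => by
          rw [hp]
          exact le_antisymm (hle l) (hc l)
        rw [Units.val_mul, Units.val_inv_eq_inv_val, Units.val_pow_eq_pow_val,
          Units.val_pow_eq_pow_val, map_mul, map_inv₀, map_pow, map_pow, h2, h2, one_pow, one_pow,
          inv_one, mul_one]
      obtain ⟨l, hl⟩ := hex
      have hR : O.valuation ((c : K) * ∏ i, (aeval x (P i)) ^ e i) < 1 := by
        rw [map_mul, map_prod]
        have h0 : ∏ i, O.valuation ((aeval x (P i)) ^ e i) < 1 := by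
          rw [← Finset.mul_prod_erase _ _ (Finset.mem_univ l)]
          refine mul_lt_one_of_lt_of_le ?_ (Finset.prod_le_one' fun k _ => ?_)
          · rw [map_pow]
            exact pow_lt_one₀ zero_le hl (he l)
          · rw [map_pow]
            exact pow_le_one' (hle k) _
        exact (mul_le_of_le_one_left' (val_int O c)).trans_lt h0
      have hP : O.valuation ((w : K) ^ 2 - κ * w + ε) < 1 := by
        have e1 : (w : K) ^ 2 - κ * w + ε = w * ((c : K) * ∏ i, (aeval x (P i)) ^ e i) := by
          have h0 : ((c : K) * ∏ i, (aeval x (P i)) ^ e i) = (w : K) + ε * (w : K)⁻¹ - κ := by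
            rw [h]; ring
          rw [h0]
          have := w.ne_zero
          field_simp
          ring
        rw [e1, map_mul, hw, one_mul]
        exact hR
      have h12 := BPH.pow_twelve O hκ hw hP
      have h5 := sym_mem_of_sub_one_right O
        (z := p i ^ (P j).natDegree * (p j ^ (P i).natDegree)⁻¹) (y := w ^ 12) (by
        rw [Units.val_pow_eq_pow_val]; exact h12)
      rw [sym_pow_right] at h5
      have h6 := (unr O).smul_mem ((12 : ℕ) : ℚ)⁻¹ h5
      rwa [smul_smul, inv_mul_cancel₀ (by norm_num), one_smul] at h6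
  · -- `x` has a pole
    push Not at hxO
    have hx0 : x ≠ 0 := by
      rintro rfl
      rw [map_zero] at hxO
      exact absurd hxO (not_lt.2 zero_le_one)
    set X' : Kˣ := Units.mk0 x hx0 with hX'
    have h1 : ∀ l, sym (p l * (X' ^ (P l).natDegree)⁻¹) w ∈ unr O := by
      intro l
      refine sym_mem_of_sub_one_left O ?_
      have h2 := val_monic_sub O hxO (hP l)
      rw [← hp, div_eq_mul_inv] at h2
      rw [Units.val_mul, Units.val_inv_eq_inv_val, Units.val_pow_eq_pow_val]
      exact h2
    have h3 : p i ^ (P j).natDegree * (p j ^ (P i).natDegree)⁻¹ =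
        (p i * (X' ^ (P i).natDegree)⁻¹) ^ (P j).natDegree *
          ((p j * (X' ^ (P j).natDegree)⁻¹) ^ (P i).natDegree)⁻¹ := by
      rw [mul_pow, mul_pow, inv_pow, inv_pow, ← pow_mul, ← pow_mul, mul_inv, inv_inv,
        mul_comm (P j).natDegree (P i).natDegree]
      rw [mul_assoc (p i ^ (P j).natDegree), mul_left_comm (X' ^ ((P i).natDegree * _))⁻¹,
        inv_mul_cancel, mul_one]
    rw [h3, sym_mul_left, sym_inv_left, sym_pow_left, sym_pow_left]
    exact add_mem ((unr O).smul_mem _ (h1 i)) (neg_mem ((unr O).smul_mem _ (h1 j)))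

end BPG
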