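import Pool.Agent.BPG.Dec
import Pool.Agent.BPG.Int
import Pool.Agent.BPH.Hom

set_option autoImplicit false

/-!
# BPG-Main: the rank theorem
-/

namespace BPG

open Pool.Agent.Helper11 Pool.Agent.RHE Polynomial BPH

section

variable {r : ℕ} {P : Fin (r + 1) → ℤ[X]} {e : Fin (r + 1) → ℕ} {c κ ε : ℤ}

theorem exists_loops (hm : ∀ i, (P i).Monic) (hi : ∀ i, Irreducible (P i))
    (hd : Function.Injective P) (he : ∀ i, e i ≠ 0) (hc : c ≠ 0) (hκ : Adm κ ε)
    {W G H : ℝ[X]} (hH : Squarefree H) (hdec : dpol P e c κ ε ℝ = W * (G ^ 2 * H))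
    (hW : ∀ x : ℂ, (∀ i, (pc (P i)).eval x ≠ 0) → (W.map (algebraMap ℝ ℂ)).eval x ≠ 0)
    {y : Fin r → ℝ} (hy : y ≠ 0) (hG : G ∣ apol P (zz P y)) :
    ∃ ξ ω : ℝ → ℂ, ξ ∈ LoopRing ∧ ω ∈ LoopRing ∧ (∀ t, Transcendental ℚ (ξ t)) ∧ (∀ t, ω t ≠ 0) ∧
      (∀ t, ω t + ε * (ω t)⁻¹ = c * ∏ i, (aeval (ξ t) (P i)) ^ e i + κ) ∧
      ∑ i, y i * regInt (fun t => aeval (ξ t) (P i.succ) ^ (P 0).natDegree /
        aeval (ξ t) (P 0) ^ (P i.succ).natDegree) ω ≠ 0 := by
  have hdecc : dpol P e c κ ε ℂ = (W * (G ^ 2 * H)).map (algebraMap ℝ ℂ) := by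
    rw [← hdec, dpol_map]
  rcases hκ with ⟨rfl, hκ⟩ | ⟨rfl, rfl⟩
  · obtain ⟨ξ, ω, h1, h2, h3, h4, h5, h6⟩ := exists_aux P hm hi hd he (c : ℂ)
      (by exact_mod_cast hc) (κ : ℝ) (by exact_mod_cast hκ) hy G H W 1 one_ne_zero
      (by
        rw [C_1, one_mul, ← hdecc, dpol, fpol]
        push_cast
        rw [mul_one]) hW hH hG
    refine ⟨ξ, ω, h1, h2, h3, h4, fun t => ?_, h6⟩
    have := h5 t
    push_cast at this ⊢
    rw [one_mul]
    exact this
  · obtain ⟨ξ, ω, h1, h2, h3, h4, h5, h6⟩ := exists_aux P hm hi hd he (-Complex.I * c)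
      (mul_ne_zero (neg_ne_zero.2 Complex.I_ne_zero) (by exact_mod_cast hc))
      0 (by norm_num) hy G H W (-1) (by norm_num)
      (by
        rw [← hdecc, dpol, fpol]
        have h1 : (C (-Complex.I * (c : ℂ)) : ℂ[X]) ^ 2 = - C (c : ℂ) ^ 2 := by
          rw [← C_pow, ← C_pow, ← C_neg]
          congr 1
          linear_combination (c : ℂ) ^ 2 * Complex.I_sq
        have h2 : (C ((0 : ℝ) : ℂ) : ℂ[X]) = 0 := by rw [Complex.ofReal_zero, C_0]
        have h3 : (C ((0 : ℤ) : ℂ) : ℂ[X]) = 0 := by rw [Int.cast_zero, C_0]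
        have h4 : (C (4 * ((-1 : ℤ) : ℂ)) : ℂ[X]) = - C 4 := by
          rw [← C_neg]
          congr 1
          push_cast
          ring
        rw [h2, h3, h4, add_zero, add_zero, mul_pow, h1, C_neg, C_1]
        ring) hW hH hG
    refine ⟨ξ, fun t => Complex.I * ω t, h1, ⟨contDiff_const.mul h2.1, fun t => by
      simp only
      rw [h2.2 t]⟩, h3, fun t => mul_ne_zero Complex.I_ne_zero (h4 t), fun t => ?_, ?_⟩
    · have := h5 t
      have h0 := h4 t
      have hI : (Complex.I)⁻¹ = -Complex.I := Complex.inv_I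
      rw [mul_inv, hI]
      push_cast at this ⊢
      linear_combination Complex.I * this -
        (c : ℂ) * (∏ i, (aeval (ξ t) (P i)) ^ e i) * Complex.I_sq
    · simp_rw [regInt_I_mul]
      exact h6

/-- the numerator of `F` is linear in `y` -/
noncomputable def alin (P : Fin (r + 1) → ℤ[X]) : (Fin r → ℝ) →ₗ[ℝ] ℝ[X] where
  toFun := fun y => apol P (zz P y)
  map_add' := fun y y' => by
    have h1 : ∀ i, zz P (y + y') i = zz P y i + zz P y' i := by
      intro i
      refine Fin.cases ?_ (fun j => ?_) i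
      · simp only [zz, Fin.cons_zero, Pi.add_apply, mul_add, Finset.sum_add_distrib, neg_add]
      · simp only [zz, Fin.cons_succ, Pi.add_apply, mul_add]
    unfold apol
    rw [← Finset.sum_add_distrib]
    exact Finset.sum_congr rfl fun i _ => by rw [h1, C_add, add_mul]
  map_smul' := fun s y => by
    have h1 : ∀ i, zz P (s • y) i = s * zz P y i := by
      intro i
      refine Fin.cases ?_ (fun j => ?_) i
      · simp only [zz, Fin.cons_zero, Pi.smul_apply, smul_eq_mul, mul_neg, Finset.mul_sum]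
        congr 1
        exact Finset.sum_congr rfl fun j _ => by ring
      · simp only [zz, Fin.cons_succ, Pi.smul_apply, smul_eq_mul]
        ring
    unfold apol
    rw [RingHom.id_apply, Finset.smul_sum]
    exact Finset.sum_congr rfl fun i _ => by rw [h1, C_mul, mul_assoc, smul_eq_C_mul]

lemma dvd_of_coeff {G A : ℝ[X]} (hG : G.Monic) (h : ∀ k < G.natDegree, (A %ₘ G).coeff k = 0) :
    G ∣ A := by
  rw [← modByMonic_eq_zero_iff_dvd hG]
  by_contra hne
  have h1 : (A %ₘ G).natDegree < G.natDegree := by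
    refine natDegree_modByMonic_lt A hG ?_
    rintro rfl
    exact hne (modByMonic_one A)
  exact hne (leadingCoeff_eq_zero.1 (h _ h1))

lemma aeval_fpol {L : Type*} [Field L] [Algebra ℚ L] (z : L) :
    aeval z (fpol P e c κ ℚ) = c * ∏ i, (aeval z (P i)) ^ e i + κ := by
  rw [fpol, rpol, map_add, map_mul, aeval_C, aeval_C, map_intCast, map_intCast, map_prod]
  congr 2
  refine Finset.prod_congr rfl fun i _ => ?_
  rw [map_pow]
  congr 1
  exact aeval_map_algebraMap ℚ z (P i)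

/-- the rank theorem -/
theorem rank_thm (hm : ∀ i, (P i).Monic) (hi : ∀ i, Irreducible (P i))
    (hd : Function.Injective P) (he : ∀ i, e i ≠ 0) (hc : c ≠ 0) (hκ : Adm κ ε)
    {W G H : ℝ[X]} (hGm : G.Monic) (hH : Squarefree H)
    (hdec : dpol P e c κ ε ℝ = W * (G ^ 2 * H))
    (hW : ∀ x : ℂ, (∀ i, (pc (P i)).eval x ≠ 0) → (W.map (algebraMap ℝ ℂ)).eval x ≠ 0)
    {K : Type*} [Field K] [CharZero K] {x w : K} (hx : Transcendental ℚ x)
    (hK : IntermediateField.adjoin ℚ {x, w} = ⊤)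
    (h : w + ε * w⁻¹ = c * ∏ i, (aeval x (P i)) ^ e i + κ) :
    ∃ (u : Fin r → Kˣ) (v : Kˣ), (v : K) = w ∧
      (∀ i, (u i : K) = aeval x (P i.succ) ^ (P 0).natDegree /
        aeval x (P 0) ^ (P i.succ).natDegree) ∧ (∀ i, sym (u i) v ∈ integralPart K) ∧
      ∃ (n : ℕ) (R : Fin n → (K2Q K →ₗ[ℚ] ℝ)),
        (∀ j, ∃ γ : K →+* LoopRing, ∀ f g : Kˣ,
          R j (sym f g) = regInt (γ (f : K) : ℝ → ℂ) (γ (g : K) : ℝ → ℂ)) ∧
        r ≤ Module.finrank ℝ (Submodule.span ℝ (Set.range fun (i : Fin r) (j : Fin n) =>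
          R j (sym (u i) v))) + G.natDegree := by
  have hxp : ∀ i, aeval x (P i) ≠ 0 := by
    intro i h0
    have h1 : Transcendental ℤ x := fun ha => hx (ha.extendScalars (Int.cast_injective (α := ℚ)))
    exact (hm i).ne_zero (transcendental_iff.1 h1 (P i) h0)
  have hεq : (ε : ℚ) ≠ 0 := by
    rcases hκ with ⟨rfl, _⟩ | ⟨rfl, _⟩ <;> norm_num
  have hfd : (fpol P e c κ ℚ).natDegree ≠ 0 := by
    rw [fpol, lin_natDegree ℚ hm hc]
    exact (deg_pos hm hi he).ne'
  have hw0 : w ≠ 0 := by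
    rintro rfl
    rw [inv_zero, mul_zero, add_zero, ← aeval_fpol] at h
    have h1 := (transcendental_iff.1 hx) _ h.symm
    exact hfd (by rw [h1, natDegree_zero])
  have hh : w + algebraMap ℚ K (ε : ℚ) * w⁻¹ = aeval x (fpol P e c κ ℚ) := by
    rw [aeval_fpol, map_intCast]
    exact h
  set p : Fin (r + 1) → Kˣ := fun i => Units.mk0 (aeval x (P i)) (hxp i) with hp
  set u : Fin r → Kˣ := fun i =>
    p i.succ ^ (P 0).natDegree * (p 0 ^ (P i.succ).natDegree)⁻¹ with hu
  set v : Kˣ := Units.mk0 w hw0 with hv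
  have huv : ∀ i, (u i : K) = aeval x (P i.succ) ^ (P 0).natDegree /
      aeval x (P 0) ^ (P i.succ).natDegree := by
    intro i
    rw [hu]
    simp only [Units.val_mul, Units.val_inv_eq_inv_val, Units.val_pow_eq_pow_val]
    rw [div_eq_mul_inv]
    rfl
  let N : Fin G.natDegree → ((Fin r → ℝ) →ₗ[ℝ] ℝ) := fun k =>
    (lcoeff ℝ k).comp ((modByMonicHom G).comp (alin P))
  obtain ⟨n, γ, hγ⟩ := exists_finite_family (Γ := K →+* LoopRing)
    (fun γ i => regInt (γ (u i : K) : ℝ → ℂ) (γ (v : K) : ℝ → ℂ)) N (fun y hy hN => by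
      have hGA : G ∣ apol P (zz P y) := by
        refine dvd_of_coeff hGm fun k hk => ?_
        exact hN ⟨k, hk⟩
      obtain ⟨ξ, ω, hξ, hω, ht, hω0, hωf, hI⟩ :=
        exists_loops hm hi hd he hc hκ hH hdec hW hy hGA
      obtain ⟨γ, hγx, hγw⟩ := exists_hom (ε := (ε : ℚ)) (f := fpol P e c κ ℚ)
        hfd hεq hx hw0 hh hK hξ hω ht hω0 (fun t => by
          rw [aeval_fpol, map_intCast]
          exact hωf t)
      refine ⟨γ, ?_⟩
      have h1 : ∀ Q : ℤ[X], (γ (aeval x Q) : ℝ → ℂ) = fun t => aeval (ξ t) Q := by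
        intro Q
        have h2 : γ (aeval x Q) = aeval (γ x) Q := (aeval_algHom_apply γ.toIntAlgHom x Q).symm
        have h3 : γ x = ⟨ξ, hξ⟩ := Subtype.ext hγx
        rw [h2, h3, aeval_apply hξ]
      have h2 : ∀ i, (γ (u i : K) : ℝ → ℂ) = fun t => aeval (ξ t) (P i.succ) ^ (P 0).natDegree /
          aeval (ξ t) (P 0) ^ (P i.succ).natDegree := by
        intro i
        have h3 : γ (u i : K) * γ (aeval x (P 0)) ^ (P i.succ).natDegree =
            γ (aeval x (P i.succ)) ^ (P 0).natDegree := by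
          rw [← map_pow γ, ← map_mul γ, ← map_pow γ, huv,
            div_mul_cancel₀ _ (pow_ne_zero _ (hxp 0))]
        funext t
        have h4 := congrFun (congrArg Subtype.val h3) t
        rw [Subring.coe_mul, Pi.mul_apply, Subring.coe_pow, Subring.coe_pow, Pi.pow_apply,
          Pi.pow_apply, h1, h1] at h4
        rw [eq_div_iff (pow_ne_zero _ (aeval_ne (ht t) (hm 0).ne_zero))]
        exact h4
      have h3 : (γ (v : K) : ℝ → ℂ) = ω := hγw
      simp only [h2, h3]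
      exact hI)
  choose R hR using fun j => exists_reg (γ j)
  refine ⟨u, v, rfl, huv, fun i => ?_, n, R, fun j => ⟨γ j, hR j⟩, ?_⟩
  · exact sym_integral P hm e he c κ ε hκ x v p (fun i => rfl) h i.succ 0
  · have h7 : (fun (i : Fin r) (j : Fin n) => R j (sym (u i) v)) =
        fun i j => regInt (γ j (u i : K) : ℝ → ℂ) (γ j (v : K) : ℝ → ℂ) := by
      funext i j
      exact hR j (u i) v
    rw [h7]
    exact hγ

end

end BPG
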