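import Pool.Agent.BPG.Defs
import Pool.Agent.BPG.Main

set_option autoImplicit false

/-!
# BPG-Fin: the genus bound
-/

namespace BPG

open Pool.Agent.Helper11 Pool.Agent.RHE Polynomial BPH

variable {r : ℕ} {P : Fin (r + 1) → ℤ[X]} {e : Fin (r + 1) → ℕ} {c κ ε : ℤ}

lemma genus_le (hm : ∀ i, (P i).Monic) (hi : ∀ i, Irreducible (P i)) (he : ∀ i, e i ≠ 0)
    {d g : ℕ} (hg : {β : ℂ | Odd ((dpol P e c κ ε ℂ).rootMultiplicity β)}.ncard + 2 * g ≤
        2 * ∑ i, (P i).natDegree * ((e i + (if |κ| = 2 then 1 else 0)) /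
          (if |κ| = 2 then 2 else 1))) (hd : r ≤ d + g) :
    genus (disc P e c κ ε) ≤
      d + ∑ i, ((P i).natDegree * (if |κ| = 2 then (e i + 1) / 2 else e i) - 1) := by
  have h1 : disc P e c κ ε = dpol P e c κ ε ℂ := rfl
  rw [genus, h1]
  have h2 : ∑ i, (P i).natDegree * ((e i + (if |κ| = 2 then 1 else 0)) /
      (if |κ| = 2 then 2 else 1)) =
      (r + 1) + ∑ i, ((P i).natDegree * (if |κ| = 2 then (e i + 1) / 2 else e i) - 1) := by
    have h3 : ∀ i, (P i).natDegree * ((e i + (if |κ| = 2 then 1 else 0)) /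
      (if |κ| = 2 then 2 else 1)) =
        1 + ((P i).natDegree * (if |κ| = 2 then (e i + 1) / 2 else e i) - 1) := by
      intro i
      have h4 : 0 < (P i).natDegree := natDegree_pos (hm i) (hi i)
      have h5 := he i
      split_ifs
      · have h6 : 0 < (e i + 1) / 2 := by omega
        have h7 := Nat.mul_pos h4 h6
        omega
      · have h7 := Nat.mul_pos h4 (Nat.pos_of_ne_zero h5)
        simp only [add_zero, Nat.div_one]
        omega
    rw [Finset.sum_congr rfl fun i _ => h3 i, Finset.sum_add_distrib]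
    simp
  rw [h2] at hg
  omega

/-- the main theorem -/
theorem main (hm : ∀ i, (P i).Monic) (hi : ∀ i, Irreducible (P i))
    (hd : Function.Injective P) (he : ∀ i, e i ≠ 0) (hc : c ≠ 0) (hκ : Adm κ ε)
    {K : Type*} [Field K] [CharZero K] {x w : K} (hx : Transcendental ℚ x)
    (hK : IntermediateField.adjoin ℚ {x, w} = ⊤)
    (h : w + ε * w⁻¹ = c * ∏ i, (aeval x (P i)) ^ e i + κ) :
    ∃ (u : Fin r → Kˣ) (v : Kˣ), (v : K) = w ∧
      (∀ i, (u i : K) = aeval x (P i.succ) ^ (P 0).natDegree /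
        aeval x (P 0) ^ (P i.succ).natDegree) ∧ (∀ i, sym (u i) v ∈ integralPart K) ∧
      ∃ (n : ℕ) (R : Fin n → (K2Q K →ₗ[ℚ] ℝ)),
        (∀ j, ∃ γ : K →+* LoopRing, ∀ f g : Kˣ,
          R j (sym f g) = regInt (γ (f : K) : ℝ → ℂ) (γ (g : K) : ℝ → ℂ)) ∧
        genus (disc P e c κ ε) ≤ Module.finrank ℝ (Submodule.span ℝ
            (Set.range fun (i : Fin r) (j : Fin n) => R j (sym (u i) v))) +
          ∑ i, ((P i).natDegree * (if |κ| = 2 then (e i + 1) / 2 else e i) - 1) := by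
  obtain ⟨W, G, H, hG, hH, hdec, hW, hg⟩ := exists_dec (e := e) (κ := κ) (ε := ε) hm hi hd he hc hκ
  obtain ⟨u, v, h1, h2, h3, n, R, h4, h5⟩ := rank_thm hm hi hd he hc hκ hG hH hdec hW hx hK h
  exact ⟨u, v, h1, h2, h3, n, R, h4, genus_le hm hi he hg h5⟩

end BPG
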