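import Mathlib

set_option autoImplicit false

/-!
# BPG-Roots: the complex roots of distinct monic irreducible integer polynomials
-/

namespace BPG

open Polynomial

/-- the complex polynomial of an integer polynomial -/
noncomputable def pc (P : ℤ[X]) : ℂ[X] := P.map (Int.castRingHom ℂ)

/-- the set of complex roots -/
noncomputable def rt (P : ℤ[X]) : Finset ℂ := (pc P).roots.toFinset

variable {P Q : ℤ[X]}

lemma pc_monic (hP : P.Monic) : (pc P).Monic := hP.map _

lemma pc_natDegree (hP : P.Monic) : (pc P).natDegree = P.natDegree := hP.natDegree_map _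

lemma pc_eval (x : ℂ) : (pc P).eval x = aeval x P := by
  rw [pc, eval_map, aeval_def]
  rfl

lemma pc_eq (P : ℤ[X]) : pc P = (P.map (Int.castRingHom ℚ)).map (algebraMap ℚ ℂ) := by
  rw [pc, Polynomial.map_map]
  congr 1

lemma irr (hP : P.Monic) (hi : Irreducible P) : Irreducible (P.map (Int.castRingHom ℚ)) :=
  (Monic.irreducible_iff_irreducible_map_fraction_map (K := ℚ) hP).1 hi

lemma pc_separable (hP : P.Monic) (hi : Irreducible P) : (pc P).Separable := by
  rw [pc_eq]
  exact (irr hP hi).separable.map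

lemma pc_coprime (hP : P.Monic) (hi : Irreducible P) (hQ : Q.Monic) (hj : Irreducible Q)
    (h : P ≠ Q) : IsCoprime (pc P) (pc Q) := by
  rw [pc_eq, pc_eq]
  have h1 : IsCoprime (P.map (Int.castRingHom ℚ)) (Q.map (Int.castRingHom ℚ)) := by
    rw [(irr hP hi).coprime_iff_not_dvd]
    intro hd
    have h2 : Associated (P.map (Int.castRingHom ℚ)) (Q.map (Int.castRingHom ℚ)) :=
      (irr hP hi).associated_of_dvd (irr hQ hj) hd
    have h3 := eq_of_monic_of_associated (hP.map _) (hQ.map _) h2
    exact h (map_injective _ (Int.cast_injective) h3)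
  exact h1.map (mapRingHom (algebraMap ℚ ℂ))

lemma mem_rt (hP : P.Monic) {x : ℂ} : x ∈ rt P ↔ (pc P).eval x = 0 := by
  rw [rt, Multiset.mem_toFinset, mem_roots (pc_monic hP).ne_zero, IsRoot.def]

lemma roots_nodup (hP : P.Monic) (hi : Irreducible P) : (pc P).roots.Nodup :=
  nodup_roots (pc_separable hP hi)

lemma rt_card (hP : P.Monic) (hi : Irreducible P) : (rt P).card = P.natDegree := by
  rw [rt, Multiset.toFinset_card_of_nodup (roots_nodup hP hi),
    ← (IsAlgClosed.splits (pc P)).natDegree_eq_card_roots, pc_natDegree hP]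

lemma pc_prod (hP : P.Monic) (hi : Irreducible P) : pc P = ∏ t ∈ rt P, (X - C t) := by
  conv_lhs => rw [(IsAlgClosed.splits (pc P)).eq_prod_roots_of_monic (pc_monic hP)]
  rw [rt, Finset.prod_multiset_map_count]
  refine Finset.prod_congr rfl fun t ht => ?_
  rw [Multiset.count_eq_one_of_mem (roots_nodup hP hi) (Multiset.mem_toFinset.1 ht), pow_one]

lemma rt_disjoint (hP : P.Monic) (hi : Irreducible P) (hQ : Q.Monic) (hj : Irreducible Q)
    (h : P ≠ Q) {x : ℂ} (h1 : x ∈ rt P) (h2 : x ∈ rt Q) : False := by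
  obtain ⟨a, b, hab⟩ := pc_coprime hP hi hQ hj h
  have h3 := congrArg (fun p => p.eval x) hab
  simp only [eval_add, eval_mul, (mem_rt hP).1 h1, (mem_rt hQ).1 h2, mul_zero, add_zero,
    eval_one] at h3
  exact zero_ne_one h3

lemma natDegree_pos (hP : P.Monic) (hi : Irreducible P) : 0 < P.natDegree := by
  by_contra h
  push Not at h
  exact hi.not_isUnit (by rw [hP.natDegree_eq_zero.1 (Nat.le_zero.1 h)]; exact isUnit_one)

end BPG
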